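import Mathlib

/-!
# Equality in a packing bound for unit discs in a square
-/

namespace Pool.Agent.Results.MP_77b5a8_co.NoEquality

open Metric

/-- The square `[0, s]²` in the Euclidean plane. -/
def square (s : ℝ) : Set (EuclideanSpace ℝ (Fin 2)) :=
  {p | (0 ≤ p 0 ∧ p 0 ≤ s) ∧ (0 ≤ p 1 ∧ p 1 ≤ s)}

/-- The square `[0, s]²` contains `n` nonoverlapping unit discs. -/
def Holds (n : ℕ) (s : ℝ) : Prop :=
  ∃ c : Fin n → EuclideanSpace ℝ (Fin 2),
    (∀ i, closedBall (c i) 1 ⊆ square s) ∧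
    ∀ i j, i ≠ j → Disjoint (interior (closedBall (c i) 1)) (interior (closedBall (c j) 1))

/-- `s_n`: the minimal side length of a square containing `n` nonoverlapping unit discs. -/
noncomputable def sMin (n : ℕ) : ℝ := sInf {s | Holds n s}

/-- The quadratic polynomial of the problem. -/
noncomputable def F (s : ℝ) : ℝ := s ^ 2 - (3 + √3) * s + 2 + 2 * √3

lemma disjoint_iff (x y : EuclideanSpace ℝ (Fin 2)) :
    Disjoint (interior (closedBall x 1)) (interior (closedBall y 1)) ↔ 2 ≤ dist x y := by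
  rw [interior_closedBall x one_ne_zero, interior_closedBall y one_ne_zero,
    disjoint_ball_ball_iff one_pos one_pos]
  norm_num

lemma dist_sq (a b a' b' : ℝ) :
    dist (!₂[a, b] : EuclideanSpace ℝ (Fin 2)) !₂[a', b'] = √((a - a') ^ 2 + (b - b') ^ 2) := by
  rw [EuclideanSpace.dist_eq]
  simp [Real.dist_eq, sq_abs]

lemma ball_subset {s a b : ℝ} (h1 : 1 ≤ a) (h2 : a ≤ s - 1) (h3 : 1 ≤ b) (h4 : b ≤ s - 1) :
    closedBall (!₂[a, b] : EuclideanSpace ℝ (Fin 2)) 1 ⊆ square s := by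
  intro p hp
  rw [mem_closedBall, EuclideanSpace.dist_eq, Real.sqrt_le_left (by norm_num), Fin.sum_univ_two,
    Real.dist_eq, Real.dist_eq, sq_abs, sq_abs] at hp
  have e0 : (!₂[a, b] : EuclideanSpace ℝ (Fin 2)) 0 = a := by simp
  have e1 : (!₂[a, b] : EuclideanSpace ℝ (Fin 2)) 1 = b := by simp
  rw [e0, e1] at hp
  have hx : |p 0 - a| ≤ 1 := by
    rw [← sq_le_one_iff_abs_le_one]; nlinarith [sq_nonneg (p 1 - b)]
  have hy : |p 1 - b| ≤ 1 := by
    rw [← sq_le_one_iff_abs_le_one]; nlinarith [sq_nonneg (p 0 - a)]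
  rw [abs_le] at hx hy
  exact ⟨⟨by linarith, by linarith⟩, ⟨by linarith, by linarith⟩⟩

lemma two_le_of_holds {n : ℕ} (hn : 1 ≤ n) {s : ℝ} (h : Holds n s) : 2 ≤ s := by
  obtain ⟨c, hc, _⟩ := h
  set p := c ⟨0, hn⟩ with hp
  have h1 : (!₂[p 0 + 1, p 1] : EuclideanSpace ℝ (Fin 2)) ∈ closedBall p 1 := by
    rw [mem_closedBall, EuclideanSpace.dist_eq, Real.sqrt_le_left (by norm_num)]
    simp [Real.dist_eq]
  have h2 : (!₂[p 0 - 1, p 1] : EuclideanSpace ℝ (Fin 2)) ∈ closedBall p 1 := by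
    rw [mem_closedBall, EuclideanSpace.dist_eq, Real.sqrt_le_left (by norm_num)]
    simp [Real.dist_eq]
  have h3 := (hc _ h1).1.2
  have h4 := (hc _ h2).1.1
  simp at h3 h4
  linarith

/-- the points of the hexagonal rows -/
noncomputable def pt (q : ℕ × ℕ) : EuclideanSpace ℝ (Fin 2) :=
  !₂[1 + 2 * (q.2 : ℝ) + ((q.1 % 2 : ℕ) : ℝ), 1 + √3 * (q.1 : ℝ)]

lemma pt_dist {q r : ℕ × ℕ} (h : q ≠ r) : 2 ≤ dist (pt q) (pt r) := by
  rw [pt, pt, dist_sq]
  apply Real.le_sqrt_of_sq_le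
  have h3 : √3 ^ 2 = 3 := Real.sq_sqrt (by norm_num)
  obtain ⟨j, i⟩ := q
  obtain ⟨j', i'⟩ := r
  simp only
  obtain ⟨a, ha⟩ : ∃ a : ℕ, j % 2 = a := ⟨_, rfl⟩
  obtain ⟨b, hb⟩ : ∃ b : ℕ, j' % 2 = b := ⟨_, rfl⟩
  rw [ha, hb]
  have e : (1 + 2 * (i : ℝ) + (a : ℝ) - (1 + 2 * (i' : ℝ) + (b : ℝ))) ^ 2 +
      (1 + √3 * (j : ℝ) - (1 + √3 * (j' : ℝ))) ^ 2 =
      (((2 * (i : ℤ) + a - (2 * (i' : ℤ) + b)) ^ 2 +
        3 * ((j : ℤ) - j') ^ 2 : ℤ) : ℝ) := by
    push_cast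
    linear_combination (((j : ℝ) - j') ^ 2) * h3
  rw [e]
  have key : (4 : ℤ) ≤ (2 * (i : ℤ) + a - (2 * (i' : ℤ) + b)) ^ 2 +
        3 * ((j : ℤ) - j') ^ 2 := by
    rcases lt_trichotomy j j' with hj | hj | hj
    · rcases Nat.lt_or_ge (j + 1) j' with hj2 | hj2
      · have : (j : ℤ) - j' ≤ -2 := by omega
        nlinarith [sq_nonneg (2 * (i : ℤ) + a - (2 * (i' : ℤ) + b))]
      · have hjj : (j : ℤ) - j' = -1 := by omega
        have hne : (2 * (i : ℤ) + a - (2 * (i' : ℤ) + b)) ≠ 0 := by omega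
        have h1 : 1 ≤ (2 * (i : ℤ) + a - (2 * (i' : ℤ) + b)) ^ 2 := by
          have := sq_pos_of_ne_zero hne; omega
        rw [hjj]; linarith
    · subst hj
      have hab : a = b := by omega
      subst hab
      have hii : i ≠ i' := fun hi => h (by rw [hi])
      have e2 : 2 * (i : ℤ) + a - (2 * (i' : ℤ) + a) = 2 * ((i : ℤ) - i') := by
        ring
      rw [e2]
      have hne : (i : ℤ) - i' ≠ 0 := by omega
      have h1 : 1 ≤ ((i : ℤ) - i') ^ 2 := by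
        have := sq_pos_of_ne_zero hne; omega
      nlinarith
    · rcases Nat.lt_or_ge (j' + 1) j with hj2 | hj2
      · have : 2 ≤ (j : ℤ) - j' := by omega
        nlinarith [sq_nonneg (2 * (i : ℤ) + a - (2 * (i' : ℤ) + b))]
      · have hjj : (j : ℤ) - j' = 1 := by omega
        have hne : (2 * (i : ℤ) + a - (2 * (i' : ℤ) + b)) ≠ 0 := by omega
        have h1 : 1 ≤ (2 * (i : ℤ) + a - (2 * (i' : ℤ) + b)) ^ 2 := by
          have := sq_pos_of_ne_zero hne; omega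
        rw [hjj]; linarith
  have h4 : ((4 : ℤ) : ℝ) ≤ (((2 * (i : ℤ) + a - (2 * (i' : ℤ) + b)) ^ 2 +
        3 * ((j : ℤ) - j') ^ 2 : ℤ) : ℝ) := by exact_mod_cast key
  calc (2 : ℝ) ^ 2 = ((4 : ℤ) : ℝ) := by norm_num
    _ ≤ _ := h4

/-- length of the rows -/
noncomputable def len (x : ℝ) (j : ℕ) : ℕ := if j % 2 = 0 then ⌊x / 2⌋₊ + 1 else ⌊(x + 1) / 2⌋₊

lemma sum_len (x : ℝ) (hx : 0 ≤ x) (k : ℕ) :
    k * (⌊x⌋₊ + 1) ≤ 2 * ∑ j ∈ Finset.range k, len x j := by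
  have hab : ⌊x / 2⌋₊ + 1 + ⌊(x + 1) / 2⌋₊ = ⌊x⌋₊ + 1 := by
    have e1 : ⌊x / 2⌋₊ = ⌊x⌋₊ / 2 := by exact_mod_cast Nat.floor_div_natCast x 2
    have e2 : ⌊(x + 1) / 2⌋₊ = (⌊x⌋₊ + 1) / 2 := by
      have : ⌊(x + 1) / 2⌋₊ = ⌊x + 1⌋₊ / 2 := by exact_mod_cast Nat.floor_div_natCast (x + 1) 2
      rw [this, Nat.floor_add_one hx]
    rw [e1, e2]; omega
  have hba : ⌊(x + 1) / 2⌋₊ ≤ ⌊x / 2⌋₊ + 1 := by
    rw [← Nat.floor_add_one (by positivity)]
    apply Nat.floor_le_floor; linarith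
  have hmain : ∀ m, 2 * m * (⌊x⌋₊ + 1) = 2 * ∑ j ∈ Finset.range (2 * m), len x j := by
    intro m
    induction m with
    | zero => simp
    | succ m ih =>
      rw [show 2 * (m + 1) = 2 * m + 1 + 1 by ring, Finset.sum_range_succ, Finset.sum_range_succ]
      have l1 : len x (2 * m) = ⌊x / 2⌋₊ + 1 := by simp [len]
      have l2 : len x (2 * m + 1) = ⌊(x + 1) / 2⌋₊ := by
        have : (2 * m + 1) % 2 = 1 := by omega
        simp [len, this]
      rw [l1, l2]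
      nlinarith
  rcases Nat.even_or_odd' k with ⟨m, rfl | rfl⟩
  · exact (hmain m).le
  · rw [Finset.sum_range_succ]
    have l1 : len x (2 * m) = ⌊x / 2⌋₊ + 1 := by simp [len]
    have := hmain m
    rw [l1]
    nlinarith

lemma holds_of {n : ℕ} {x : ℝ} (hx : 0 ≤ x) (h : √12 * ((n : ℝ) - 1) ≤ x ^ 2) :
    Holds n (x + 2) := by
  have h3 : √3 ^ 2 = 3 := Real.sq_sqrt (by norm_num)
  have h3pos : 0 < √3 := by positivity
  have h12 : √12 = 2 * √3 := by
    rw [show (12 : ℝ) = 2 ^ 2 * 3 by norm_num, Real.sqrt_mul (by norm_num), Real.sqrt_sq (by norm_num)]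
  set k := ⌊x / √3⌋₊ + 1 with hk
  set S : Finset (ℕ × ℕ) := (Finset.range k).sigma (fun j => Finset.range (len x j)) |>.map
    (Equiv.sigmaEquivProd ℕ ℕ).toEmbedding with hS
  have hcard : S.card = ∑ j ∈ Finset.range k, len x j := by
    rw [hS, Finset.card_map, Finset.card_sigma]; simp
  have hmem : ∀ q ∈ S, q.1 < k ∧ q.2 < len x q.1 := by
    intro q hq
    rw [hS, Finset.mem_map] at hq
    obtain ⟨⟨j, i⟩, hji, rfl⟩ := hq
    rw [Finset.mem_sigma, Finset.mem_range, Finset.mem_range] at hji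
    exact hji
  have hlt : n ≤ S.card := by
    have h1 := sum_len x hx k
    rw [← hcard] at h1
    have h2 : (k : ℝ) * ((⌊x⌋₊ : ℝ) + 1) ≤ 2 * S.card := by exact_mod_cast h1
    have h4 : x / √3 < k := by rw [hk]; push_cast; exact Nat.lt_floor_add_one _
    have h5 : x < (⌊x⌋₊ : ℝ) + 1 := Nat.lt_floor_add_one _
    have h6 : x ^ 2 / √3 < 2 * S.card := by
      rcases hx.eq_or_lt with rfl | hx'
      · have : (1 : ℝ) ≤ k := by rw [hk]; push_cast; linarith [Nat.cast_nonneg (α := ℝ) ⌊(0:ℝ) / √3⌋₊]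
        have h7 : (1 : ℝ) ≤ (⌊(0:ℝ)⌋₊ : ℝ) + 1 := by simp
        simp only [ne_eq, OfNat.ofNat_ne_zero, not_false_eq_true, zero_pow, zero_div]
        nlinarith
      · have : x ^ 2 / √3 = x / √3 * x := by ring
        rw [this]
        have h8 : 0 < x / √3 := by positivity
        nlinarith
    have h9 : √12 * ((n : ℝ) - 1) / √3 ≤ x ^ 2 / √3 := by gcongr
    rw [h12] at h9
    have e : 2 * √3 * ((n : ℝ) - 1) / √3 = 2 * ((n : ℝ) - 1) := by field_simp
    rw [e] at h9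
    have h10 : (n : ℝ) < S.card + 1 := by linarith
    have : n < S.card + 1 := by exact_mod_cast h10
    omega
  obtain ⟨T, hTS, hTcard⟩ := Finset.exists_subset_card_eq hlt
  set e := (Finset.equivFinOfCardEq hTcard).symm with he
  have hsub : ∀ j t : ℕ, j < k → t < len x j → closedBall (pt (j, t)) 1 ⊆ square (x + 2) := by
    intro j t h1 h2
    simp only [pt]
    apply ball_subset
    · have : (0 : ℝ) ≤ t := Nat.cast_nonneg _
      have : (0 : ℝ) ≤ ((j % 2 : ℕ) : ℝ) := Nat.cast_nonneg _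
      linarith
    · rcases Nat.mod_two_eq_zero_or_one j with hj | hj
      · rw [len, if_pos hj] at h2
        have h4 : (t : ℝ) ≤ ⌊x / 2⌋₊ := by exact_mod_cast Nat.lt_succ_iff.1 h2
        have h5 := Nat.floor_le (show 0 ≤ x / 2 by positivity)
        rw [hj]; push_cast; linarith
      · rw [len, if_neg (by omega)] at h2
        have h4 : (t : ℝ) + 1 ≤ ⌊(x + 1) / 2⌋₊ := by exact_mod_cast h2
        have h5 := Nat.floor_le (show 0 ≤ (x + 1) / 2 by positivity)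
        rw [hj]; push_cast; linarith
    · have : (0 : ℝ) ≤ j := Nat.cast_nonneg _
      nlinarith
    · have h4 : (j : ℝ) ≤ ⌊x / √3⌋₊ := by exact_mod_cast Nat.lt_succ_iff.1 h1
      have h5 := Nat.floor_le (show 0 ≤ x / √3 by positivity)
      have h6 : √3 * (j : ℝ) ≤ √3 * (x / √3) := by gcongr; linarith
      have h7 : √3 * (x / √3) = x := by field_simp
      linarith
  refine ⟨fun i => pt (e i).1, ?_, ?_⟩
  · intro i
    obtain ⟨h1, h2⟩ := hmem _ (hTS (e i).2)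
    exact hsub _ _ h1 h2
  · intro i j hij
    rw [disjoint_iff]
    apply pt_dist
    intro hc
    exact hij (e.injective (Subtype.ext hc))

/-- Every `n ≥ 1` satisfies `√12 n ≥ (s_n - 2)² + √12 > F(s_n)`; in particular the equality
`√12 n = F(s_n)` holds for no positive integer `n`, hence not for infinitely many. -/
theorem result :
    (∀ n : ℕ, 1 ≤ n → 2 ≤ sMin n ∧ (sMin n - 2) ^ 2 + √12 ≤ √12 * n ∧ F (sMin n) < √12 * n) ∧
    ¬ {n : ℕ | 1 ≤ n ∧ √12 * n = F (sMin n)}.Infinite := by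
  have main : ∀ n : ℕ, 1 ≤ n →
      2 ≤ sMin n ∧ (sMin n - 2) ^ 2 + √12 ≤ √12 * n ∧ F (sMin n) < √12 * n := by
    intro n hn
    have hn' : (1 : ℝ) ≤ n := by exact_mod_cast hn
    have h12 : 0 < √12 := by positivity
    have hnn : 0 ≤ √12 * ((n : ℝ) - 1) := mul_nonneg h12.le (by linarith)
    set x := √(√12 * ((n : ℝ) - 1)) with hx
    have hx2 : x ^ 2 = √12 * ((n : ℝ) - 1) := Real.sq_sqrt hnn
    have hmem : x + 2 ∈ {s | Holds n s} := holds_of (Real.sqrt_nonneg _) hx2.ge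
    have hle : sMin n ≤ x + 2 :=
      csInf_le ⟨2, fun s hs => two_le_of_holds hn hs⟩ hmem
    have hge : 2 ≤ sMin n := le_csInf ⟨_, hmem⟩ fun s hs => two_le_of_holds hn hs
    have hsq : (sMin n - 2) ^ 2 ≤ x ^ 2 := by
      apply pow_le_pow_left₀ <;> linarith
    have h2 : (sMin n - 2) ^ 2 + √12 ≤ √12 * n := by rw [hx2] at hsq; linarith
    refine ⟨hge, h2, ?_⟩
    have h3 : (1 : ℝ) ≤ √3 := Real.one_le_sqrt.2 (by norm_num)
    have e : F (sMin n) = (sMin n - 2) ^ 2 - (√3 - 1) * (sMin n - 2) := by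
      simp only [F]; ring
    rw [e]
    have h4 : 0 ≤ (√3 - 1) * (sMin n - 2) := mul_nonneg (by linarith) (by linarith)
    linarith
  refine ⟨main, ?_⟩
  rw [Set.not_infinite]
  convert Set.finite_empty
  apply Set.eq_empty_of_forall_notMem
  rintro n ⟨hn, h⟩
  exact absurd h (main n hn).2.2.ne'

end Pool.Agent.Results.MP_77b5a8_co.NoEquality
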